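import Mathlib

/-! Consecutive blocks of the natural numbers. -/

namespace Q170.AS
open Finset Filter Topology

/-- the first index of block `k`, when block `j` has `L j` elements -/
def M (L : ℕ → ℕ) (k : ℕ) : ℕ := ∑ j ∈ range k, L j

lemma M_succ (L : ℕ → ℕ) (k : ℕ) : M L (k + 1) = M L k + L k := by
  simp [M, sum_range_succ]

lemma M_zero (L : ℕ → ℕ) : M L 0 = 0 := by simp [M]

lemma M_mono (L : ℕ → ℕ) : Monotone (M L) :=
  monotone_nat_of_le_succ fun k => by rw [M_succ]; omega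

lemma le_M {L : ℕ → ℕ} (hL : ∀ k, 0 < L k) (k : ℕ) : k ≤ M L k := by
  induction k with
  | zero => simp
  | succ k ih =>
    rw [M_succ]
    have := hL k
    omega

lemma exists_blk {L : ℕ → ℕ} (hL : ∀ k, 0 < L k) (m : ℕ) :
    ∃ k t, t < L k ∧ m = M L k + t := by
  have h0 : ∃ k, m < M L (k + 1) := ⟨m, by have := le_M hL (m + 1); omega⟩
  classical
  let k := Nat.find h0
  have h1 : m < M L (k + 1) := Nat.find_spec h0
  have h2 : M L k ≤ m := by
    rcases Nat.eq_zero_or_pos k with h | h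
    · rw [h, M_zero]; omega
    · have := Nat.find_min h0 (m := k - 1) (by change k - 1 < k; omega)
      rw [Nat.sub_add_cancel h] at this
      omega
  rw [M_succ] at h1
  exact ⟨k, m - M L k, by omega, by omega⟩

/-- the block containing `m` -/
def blk (L : ℕ → ℕ) (m : ℕ) : ℕ := Nat.findGreatest (fun k => M L k ≤ m) m

lemma blk_add {L : ℕ → ℕ} (hL : ∀ k, 0 < L k) (k t : ℕ) (ht : t < L k) :
    blk L (M L k + t) = k := by
  unfold blk
  rw [Nat.findGreatest_eq_iff]
  refine ⟨by have := le_M hL k; omega, fun _ => by omega, fun j hj _ h => ?_⟩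
  have h1 := M_mono L (show k + 1 ≤ j from hj)
  rw [M_succ] at h1
  omega

lemma sum_blocks {E : Type*} [AddCommMonoid E] (L : ℕ → ℕ) (F : ℕ → E) (k : ℕ) :
    ∑ m ∈ range (M L k), F m = ∑ j ∈ range k, ∑ s ∈ range (L j), F (M L j + s) := by
  induction k with
  | zero => simp [M_zero]
  | succ k ih =>
    rw [M_succ, sum_range_add, ih, sum_range_succ]

lemma tendsto_blocks {E : Type*} [SeminormedAddCommGroup E] {L : ℕ → ℕ} (hL : ∀ k, 0 < L k)
    (F : ℕ → E) (s : E) (ε : ℕ → ℝ)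
    (h1 : Tendsto (fun k => ∑ j ∈ range k, ∑ t ∈ range (L j), F (M L j + t)) atTop (𝓝 s))
    (hε : Tendsto ε atTop (𝓝 0))
    (h2 : ∀ k t, t ≤ L k → ‖∑ i ∈ range t, F (M L k + i)‖ ≤ ε k) :
    Tendsto (fun n => ∑ m ∈ range n, F m) atTop (𝓝 s) := by
  rw [Metric.tendsto_atTop]
  intro δ hδ
  obtain ⟨K1, hK1⟩ := Metric.tendsto_atTop.mp h1 (δ / 2) (by positivity)
  obtain ⟨K2, hK2⟩ := Metric.tendsto_atTop.mp hε (δ / 2) (by positivity)
  refine ⟨M L (max K1 K2), fun n hn => ?_⟩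
  obtain ⟨k, t, ht, rfl⟩ := exists_blk hL n
  have hk : max K1 K2 ≤ k := by
    by_contra h
    push Not at h
    have := M_mono L (show k + 1 ≤ max K1 K2 from h)
    rw [M_succ] at this
    omega
  rw [sum_range_add, sum_blocks]
  have h3 := hK1 k ((le_max_left _ _).trans hk)
  have h4 := hK2 k ((le_max_right _ _).trans hk)
  have h5 := h2 k t ht.le
  rw [Real.dist_eq, sub_zero] at h4
  have h6 : ε k < δ / 2 := lt_of_le_of_lt (le_abs_self _) h4
  calc dist (∑ j ∈ range k, ∑ s ∈ range (L j), F (M L j + s) + ∑ i ∈ range t, F (M L k + i)) s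
      ≤ dist (∑ j ∈ range k, ∑ s ∈ range (L j), F (M L j + s) + ∑ i ∈ range t, F (M L k + i))
          (∑ j ∈ range k, ∑ s ∈ range (L j), F (M L j + s)) +
        dist (∑ j ∈ range k, ∑ s ∈ range (L j), F (M L j + s)) s := dist_triangle _ _ _
    _ < δ := by
        rw [dist_self_add_left]
        linarith

lemma tendsto_M {L : ℕ → ℕ} (hL : ∀ k, 0 < L k) : Tendsto (M L) atTop atTop :=
  tendsto_atTop_mono (le_M hL) tendsto_id

end Q170.AS
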