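import Mathlib

/-! Integer combinatorics of one block. -/

namespace Q170.AS
open Finset

/-- the integer coefficients of a block of parameter `n` -/
def cf (n t : ℕ) : ℤ :=
  if t % 2 = 0 then 2 ^ n + (if t / 2 < n then 2 ^ (t / 2) else 0) else -2 ^ n

lemma cf_even (n i : ℕ) : cf n (2 * i) = 2 ^ n + (if i < n then 2 ^ i else 0) := by
  have h1 : 2 * i / 2 = i := by omega
  have h2 : 2 * i % 2 = 0 := by omega
  unfold cf
  rw [h1, h2]
  simp

lemma cf_odd (n i : ℕ) : cf n (2 * i + 1) = -2 ^ n := by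
  have h2 : (2 * i + 1) % 2 = 1 := by omega
  unfold cf
  rw [h2]
  simp

lemma abs_cf_le (n t : ℕ) : |cf n t| ≤ 2 * 2 ^ n := by
  unfold cf
  have h0 : (0 : ℤ) < 2 ^ n := by positivity
  split_ifs with h1 h2
  · have h3 : (2 : ℤ) ^ (t / 2) ≤ 2 ^ n := pow_le_pow_right₀ (by norm_num) h2.le
    have h4 : (0 : ℤ) < 2 ^ (t / 2) := by positivity
    rw [abs_of_pos (by linarith)]
    linarith
  · rw [abs_of_pos (by linarith)]
    linarith
  · rw [abs_neg, abs_of_pos h0]
    linarith

lemma le_abs_cf (n t : ℕ) : 2 ^ n ≤ |cf n t| := by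
  unfold cf
  have h0 : (0 : ℤ) < 2 ^ n := by positivity
  split_ifs with h1 h2
  · have h4 : (0 : ℤ) < 2 ^ (t / 2) := by positivity
    rw [abs_of_pos (by linarith)]
    linarith
  · rw [abs_of_pos (by linarith)]
    linarith
  · rw [abs_neg, abs_of_pos h0]

lemma sum_pairs {E : Type*} [AddCommMonoid E] (F : ℕ → E) (N : ℕ) :
    ∑ t ∈ range (2 * N), F t = ∑ i ∈ range N, (F (2 * i) + F (2 * i + 1)) := by
  induction N with
  | zero => simp
  | succ N ih =>
    rw [show 2 * (N + 1) = 2 * N + 1 + 1 by ring, sum_range_succ, sum_range_succ, ih,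
      sum_range_succ, add_assoc]

lemma two_pow_sum_ge (A : Finset ℕ) : 2 ^ A.card ≤ ∑ i ∈ A, 2 ^ i + 1 := by
  induction A using Finset.induction_on_max with
  | empty => simp
  | insert m A hA ih =>
    have hm : m ∉ A := fun h => lt_irrefl _ (hA m h)
    rw [card_insert_of_notMem hm, sum_insert hm, pow_succ]
    have h1 : A.card ≤ m := by
      have : A ⊆ range m := fun i hi => mem_range.mpr (hA i hi)
      simpa using card_le_card this
    have h2 : 2 ^ A.card ≤ 2 ^ m := Nat.pow_le_pow_right (by norm_num) h1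
    omega

lemma two_pow_sum_range (n : ℕ) : ∑ i ∈ range n, 2 ^ i + 1 = 2 ^ n := by
  induction n with
  | zero => simp
  | succ n ih => rw [sum_range_succ, pow_succ]; omega

lemma two_pow_sum_lt {n : ℕ} {A : Finset ℕ} (hA : A ⊆ range n) : ∑ i ∈ A, 2 ^ i < 2 ^ n := by
  have h1 : ∑ i ∈ A, 2 ^ i ≤ ∑ i ∈ range n, 2 ^ i := sum_le_sum_of_subset hA
  have := two_pow_sum_range n
  omega

lemma two_pow_sum_le {n P : ℕ} {A : Finset ℕ} (hA : A ⊆ range n) (h : A.card + P ≤ n) :
    ∑ i ∈ A, 2 ^ i + 2 ^ P ≤ 2 ^ n := by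
  have h1 := two_pow_sum_ge (range n \ A)
  have h2 : ∑ i ∈ range n \ A, 2 ^ i + ∑ i ∈ A, 2 ^ i = ∑ i ∈ range n, 2 ^ i := sum_sdiff hA
  have h3 := two_pow_sum_range n
  have h4 : (range n \ A).card = n - A.card := by
    rw [card_sdiff_of_subset hA, card_range]
  have h5 : 2 ^ P ≤ 2 ^ (range n \ A).card := Nat.pow_le_pow_right (by norm_num) (by omega)
  omega

/-- digits -/
lemma exists_digits (n r : ℕ) (hr : r < 2 ^ n) : ∃ A ⊆ range n, ∑ i ∈ A, 2 ^ i = r := by
  induction n generalizing r with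
  | zero => exact ⟨∅, by simp, by simp at hr ⊢; omega⟩
  | succ n ih =>
    rw [pow_succ] at hr
    rcases lt_or_ge r (2 ^ n) with h | h
    · obtain ⟨A, hA, h1⟩ := ih r h
      exact ⟨A, hA.trans (range_mono (by omega)), h1⟩
    · obtain ⟨A, hA, h1⟩ := ih (r - 2 ^ n) (by omega)
      have hn : n ∉ A := fun h => by
        have := mem_range.mp (hA h)
        omega
      refine ⟨insert n A, ?_, ?_⟩
      · rw [insert_subset_iff]
        exact ⟨by simp, hA.trans (range_mono (by omega))⟩
      · rw [sum_insert hn, h1]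
        omega

open Classical in
/-- the sum of a subset of a block -/
lemma sum_subset_block (n N : ℕ) (p : ℕ → Prop) :
    ∃ (I J : Finset ℕ), I ⊆ range N ∧ J ⊆ range N ∧
      ∑ t ∈ range (2 * N), (if p t then cf n t else 0) =
        ((I.card : ℤ) - J.card) * 2 ^ n + ((∑ i ∈ I.filter (· < n), 2 ^ i : ℕ) : ℤ) := by
  refine ⟨(range N).filter (fun i => p (2 * i)), (range N).filter (fun i => p (2 * i + 1)),
    filter_subset _ _, filter_subset _ _, ?_⟩
  rw [sum_pairs, sum_add_distrib]
  have h1 : ∑ i ∈ range N, (if p (2 * i + 1) then cf n (2 * i + 1) else 0) =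
      -(((range N).filter (fun i => p (2 * i + 1))).card : ℤ) * 2 ^ n := by
    rw [← sum_filter]
    simp only [cf_odd]
    rw [sum_const, nsmul_eq_mul]
    ring
  have h2 : ∑ i ∈ range N, (if p (2 * i) then cf n (2 * i) else 0) =
      (((range N).filter (fun i => p (2 * i))).card : ℤ) * 2 ^ n +
      ((∑ i ∈ ((range N).filter (fun i => p (2 * i))).filter (· < n), 2 ^ i : ℕ) : ℤ) := by
    rw [← sum_filter]
    simp only [cf_even]
    rw [sum_add_distrib, sum_const, nsmul_eq_mul]
    push_cast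
    rw [← sum_filter]
  rw [h1, h2]
  ring

open Classical in
/-- **The holes.** A point `w` with `2 P w` an integer and `|w| ≥ 1` is far from the subset sums of
the block. -/
lemma hole (n P c : ℕ) (hPn : P ≤ n) (p : ℕ → Prop) (w : ℝ) (j : ℤ)
    (hj : 2 * P * w = j) (hw : 1 ≤ |w|) (hP : c * (|w| + 1) + 1 ≤ (2 : ℝ) ^ P) (hP0 : 0 < P) :
    (c : ℝ) ≤ |w * ((2 : ℝ) ^ (n + 1) * P + c) -
      ((∑ t ∈ range (2 * (n + P)), (if p t then cf n t else 0) : ℤ) : ℝ)| := by
  obtain ⟨I, J, hI, hJ, hs⟩ := sum_subset_block n (n + P) p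
  rw [hs]
  set A := I.filter (· < n) with hA
  set r : ℕ := ∑ i ∈ A, 2 ^ i with hr
  have hAr : A ⊆ range n := by
    intro i hi
    rw [hA, mem_filter] at hi
    exact mem_range.mpr hi.2
  have hrn : r < 2 ^ n := two_pow_sum_lt hAr
  have hrn' : (r : ℝ) + 1 ≤ 2 ^ n := by exact_mod_cast hrn
  have hr0 : (0 : ℝ) ≤ r := by positivity
  have hc0 : (0 : ℝ) ≤ c := by positivity
  have hP0' : (0 : ℝ) < P := by exact_mod_cast hP0
  have hIA : I.card ≤ A.card + P := by
    have h1 : I \ A ⊆ Ico n (n + P) := by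
      intro i hi
      rw [mem_sdiff, hA, mem_filter, not_and] at hi
      have := mem_range.mp (hI hi.1)
      have := hi.2 hi.1
      rw [mem_Ico]
      omega
    have h2 := card_le_card h1
    rw [Nat.card_Ico] at h2
    have h3 : (I \ A).card = I.card - A.card := card_sdiff_of_subset (filter_subset _ _)
    omega
  have hJc : J.card ≤ n + P := by simpa using card_le_card hJ
  have hIc : I.card ≤ n + P := by simpa using card_le_card hI
  set q : ℤ := (I.card : ℤ) - J.card with hq
  have hpow : (2 : ℝ) ^ P ≤ 2 ^ n := pow_le_pow_right₀ (by norm_num) hPn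
  have hpn0 : (0 : ℝ) < 2 ^ n := by positivity
  have e1 : w * ((2 : ℝ) ^ (n + 1) * P + c) - ((q * 2 ^ n + (r : ℤ) : ℤ) : ℝ) =
      ((j - q : ℤ) : ℝ) * 2 ^ n + w * c - r := by
    push_cast
    rw [pow_succ]
    linear_combination (2 : ℝ) ^ n * hj
  rw [e1]
  rcases le_or_gt 0 w with h0 | h0
  · rw [abs_of_nonneg h0] at hw hP
    have hwc : (c : ℝ) ≤ w * c := by nlinarith
    have hj2 : 2 * (P : ℤ) ≤ j := by
      have : 2 * (P : ℝ) ≤ j := by rw [← hj]; nlinarith
      exact_mod_cast this
    rcases lt_trichotomy q j with h | h | h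
    · have h1 : (1 : ℝ) ≤ ((j - q : ℤ) : ℝ) := by exact_mod_cast (by omega : (1 : ℤ) ≤ j - q)
      refine le_trans ?_ (le_abs_self _)
      nlinarith
    · have h2 : P ≤ A.card := by omega
      have h3 := two_pow_sum_ge A
      have h4 : 2 ^ P ≤ 2 ^ A.card := Nat.pow_le_pow_right (by norm_num) h2
      have h5 : (2 : ℝ) ^ P ≤ r + 1 := by
        have : 2 ^ P ≤ r + 1 := by rw [hr]; omega
        exact_mod_cast this
      rw [h]
      refine le_trans ?_ (neg_le_abs _)
      push_cast
      nlinarith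
    · have h1 : ((j - q : ℤ) : ℝ) ≤ -1 := by exact_mod_cast (by omega : j - q ≤ (-1 : ℤ))
      refine le_trans ?_ (neg_le_abs _)
      nlinarith
  · rw [abs_of_neg h0] at hw hP
    have hwc : w * c ≤ -c := by nlinarith
    have hj2 : j ≤ -(2 * (P : ℤ)) := by
      have : (j : ℝ) ≤ -(2 * (P : ℝ)) := by rw [← hj]; nlinarith
      exact_mod_cast this
    rcases le_or_gt j q with h | h
    · have h1 : ((j - q : ℤ) : ℝ) ≤ 0 := by exact_mod_cast (by omega : j - q ≤ (0 : ℤ))
      refine le_trans ?_ (neg_le_abs _)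
      nlinarith
    · rcases eq_or_lt_of_le (show (1 : ℤ) ≤ j - q by omega) with h' | h'
      · have h2 : A.card + P ≤ n := by
          have : A.card ≤ I.card := card_filter_le _ _
          omega
        have h3 : r + 2 ^ P ≤ 2 ^ n := two_pow_sum_le hAr h2
        have h4 : (r : ℝ) + 2 ^ P ≤ 2 ^ n := by exact_mod_cast h3
        rw [← h']
        refine le_trans ?_ (le_abs_self _)
        push_cast
        nlinarith
      · have h1 : (2 : ℝ) ≤ ((j - q : ℤ) : ℝ) := by exact_mod_cast (by omega : (2 : ℤ) ≤ j - q)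
        refine le_trans ?_ (le_abs_self _)
        nlinarith

open Classical in
/-- crude bound for the sum of a subset of a block -/
lemma abs_sum_subset_le (n P : ℕ) (p : ℕ → Prop) :
    |∑ t ∈ range (2 * (n + P)), (if p t then cf n t else 0)| ≤ (n + P + 1) * 2 ^ n := by
  obtain ⟨I, J, hI, hJ, hs⟩ := sum_subset_block n (n + P) p
  rw [hs]
  have hJc : J.card ≤ n + P := by simpa using card_le_card hJ
  have hIc : I.card ≤ n + P := by simpa using card_le_card hI
  have hAr : I.filter (· < n) ⊆ range n := by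
    intro i hi
    rw [mem_filter] at hi
    exact mem_range.mpr hi.2
  have hrn := two_pow_sum_lt hAr
  set r : ℕ := ∑ i ∈ I.filter (· < n), 2 ^ i with hr
  have hrn' : (r : ℤ) ≤ 2 ^ n := by exact_mod_cast hrn.le
  have h0 : (0 : ℤ) < 2 ^ n := by positivity
  have hr0 : (0 : ℤ) ≤ r := by positivity
  have h1 : ((I.card : ℤ) - J.card) ≤ n + P := by omega
  have h2 : -((n : ℤ) + P) ≤ ((I.card : ℤ) - J.card) := by omega
  rw [abs_le]
  constructor <;> nlinarith

/-- partial sums from pair sums -/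
lemma abs_sum_le_of_pairs (F : ℕ → ℤ) (N : ℕ) (B C : ℤ) (hB : ∀ i ≤ N,
    |∑ j ∈ range i, (F (2 * j) + F (2 * j + 1))| ≤ B) (hC : ∀ t, |F t| ≤ C) (hC0 : 0 ≤ C) (t : ℕ)
    (ht : t ≤ 2 * N) : |∑ s ∈ range t, F s| ≤ B + C := by
  rcases Nat.even_or_odd' t with ⟨i, rfl | rfl⟩
  · rw [sum_pairs]
    linarith [hB i (by omega)]
  · rw [sum_range_succ, sum_pairs]
    have := hB i (by omega)
    have h2 := hC (2 * i)
    linarith [abs_add_le (∑ j ∈ range i, (F (2 * j) + F (2 * j + 1))) (F (2 * i))]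

open Classical in
/-- **Selection.** Every integer `Z` with `|Z| ≤ P 2^n` is the sum of a subset of the block with
small partial sums. -/
lemma select (n P : ℕ) (Z : ℤ) (hZ : |Z| ≤ P * 2 ^ n) :
    ∃ p : ℕ → Prop, ∑ t ∈ range (2 * (n + P)), (if p t then cf n t else 0) = Z ∧
      ∀ t ≤ 2 * (n + P), |∑ s ∈ range t, (if p s then cf n s else 0)| ≤ |Z| + 4 * 2 ^ n := by
  have h0 : (0 : ℤ) < 2 ^ n := by positivity
  set q : ℤ := Z / 2 ^ n with hq
  have hr0 : 0 ≤ Z % 2 ^ n := Int.emod_nonneg _ h0.ne'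
  have hr1 : Z % 2 ^ n < 2 ^ n := Int.emod_lt_of_pos _ h0
  have hZq : Z = q * 2 ^ n + Z % 2 ^ n := by
    have := Int.mul_ediv_add_emod Z (2 ^ n)
    rw [hq]
    linarith
  obtain ⟨r, hr⟩ := Int.eq_ofNat_of_zero_le hr0
  rw [hr] at hr1 hZq
  have hrn : r < 2 ^ n := by exact_mod_cast hr1
  obtain ⟨A, hA, hAr⟩ := exists_digits n r hrn
  have hZ' := abs_le.mp hZ
  have hr0' : (0 : ℤ) ≤ r := by positivity
  have hr1' : (r : ℤ) < 2 ^ n := by exact_mod_cast hrn
  have hqP : q ≤ P := by
    by_contra h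
    push Not at h
    have : ((P : ℤ) + 1) * 2 ^ n ≤ q * 2 ^ n := mul_le_mul_of_nonneg_right h h0.le
    nlinarith
  have hqP' : -(P : ℤ) ≤ q := by
    by_contra h
    push Not at h
    have : q * 2 ^ n ≤ (-(P : ℤ) - 1) * 2 ^ n := mul_le_mul_of_nonneg_right (by omega) h0.le
    nlinarith
  set u := q.toNat with hu
  set v := (-q).toNat with hv
  have huv : q = (u : ℤ) - v := by omega
  have huP : u ≤ P := by omega
  have hvP : v ≤ P := by omega
  have huv0 : (u : ℤ) + v = |q| := by
    rcases le_or_gt 0 q with h | h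
    · rw [abs_of_nonneg h]; omega
    · rw [abs_of_neg h]; omega
  obtain ⟨p, hpe, hpo⟩ : ∃ p : ℕ → Prop, (∀ i, p (2 * i) ↔ (i ∈ A ∨ (n ≤ i ∧ i < n + u))) ∧
      (∀ i, p (2 * i + 1) ↔ (i ∈ A ∨ (n ≤ i ∧ i < n + v))) := by
    refine ⟨fun t => t / 2 ∈ A ∨ (n ≤ t / 2 ∧ t / 2 < n + (if t % 2 = 0 then u else v)), ?_, ?_⟩
    · intro i
      dsimp only
      rw [show (2 * i) / 2 = i by omega, show (2 * i) % 2 = 0 by omega, if_pos rfl]
    · intro i
      dsimp only
      rw [show (2 * i + 1) / 2 = i by omega, show (2 * i + 1) % 2 = 1 by omega,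
        if_neg (by norm_num)]
  have hpair : ∀ i, (if p (2 * i) then cf n (2 * i) else 0) +
      (if p (2 * i + 1) then cf n (2 * i + 1) else 0) =
      (if i ∈ A then (2 : ℤ) ^ i else 0) + (if n ≤ i ∧ i < n + u then (2 : ℤ) ^ n else 0) -
        (if n ≤ i ∧ i < n + v then (2 : ℤ) ^ n else 0) := by
    intro i
    rw [cf_even, cf_odd]
    by_cases hi : i ∈ A
    · have hin := mem_range.mp (hA hi)
      have hnu : ¬ (n ≤ i ∧ i < n + u) := by omega
      have hnv : ¬ (n ≤ i ∧ i < n + v) := by omega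
      rw [if_pos ((hpe i).mpr (Or.inl hi)), if_pos ((hpo i).mpr (Or.inl hi)), if_pos hi,
        if_neg hnu, if_neg hnv, if_pos hin]
      ring
    · by_cases hin : i < n
      · have hnu : ¬ (n ≤ i ∧ i < n + u) := by omega
        have hnv : ¬ (n ≤ i ∧ i < n + v) := by omega
        rw [if_neg (fun h => ((hpe i).mp h).elim hi hnu),
          if_neg (fun h => ((hpo i).mp h).elim hi hnv), if_neg hi, if_neg hnu, if_neg hnv]
        ring
      · simp only [hpe, hpo, hi, false_or, hin, if_false]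
        split_ifs <;> ring
  refine ⟨p, ?_, ?_⟩
  · rw [sum_pairs]
    simp only [hpair]
    rw [sum_sub_distrib, sum_add_distrib]
    have hcount : ∀ w ≤ P, ∑ i ∈ range (n + P), (if n ≤ i ∧ i < n + w then (2 : ℤ) ^ n else 0) =
        w * 2 ^ n := by
      intro w hw
      rw [← sum_filter, sum_const, nsmul_eq_mul]
      congr 2
      have : (range (n + P)).filter (fun i => n ≤ i ∧ i < n + w) = Ico n (n + w) := by
        ext i
        simp only [mem_filter, mem_range, mem_Ico]
        omega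
      rw [this, Nat.card_Ico]
      omega
    rw [hcount u huP, hcount v hvP]
    have h1 : ∑ i ∈ range (n + P), (if i ∈ A then (2 : ℤ) ^ i else 0) = r := by
      rw [← sum_filter]
      have : (range (n + P)).filter (· ∈ A) = A := by
        ext i
        simp only [mem_filter, mem_range]
        constructor
        · exact fun h => h.2
        · intro h
          have := mem_range.mp (hA h)
          exact ⟨by omega, h⟩
      rw [this, ← hAr]
      push_cast
      rfl
    rw [h1, hZq, huv]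
    ring
  · intro t ht
    have hB : |q| * 2 ^ n ≤ |Z| + 2 ^ n := by
      rcases le_or_gt 0 q with h | h
      · rw [abs_of_nonneg h]
        nlinarith [le_abs_self Z]
      · rw [abs_of_neg h]
        nlinarith [neg_abs_le Z]
    have := abs_sum_le_of_pairs (fun t => if p t then cf n t else 0) (n + P) (|Z| + 2 * 2 ^ n)
      (2 * 2 ^ n) ?_ ?_ (by positivity) t ht
    · linarith
    · intro i hi
      simp only [hpair]
      rw [sum_sub_distrib, sum_add_distrib]
      have hcount : ∀ w, 0 ≤ ∑ i ∈ range i, (if n ≤ i ∧ i < n + w then (2 : ℤ) ^ n else 0) ∧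
          ∑ i ∈ range i, (if n ≤ i ∧ i < n + w then (2 : ℤ) ^ n else 0) ≤ w * 2 ^ n := by
        intro w
        constructor
        · exact sum_nonneg fun i _ => by split_ifs <;> positivity
        · rw [← sum_filter, sum_const, nsmul_eq_mul]
          refine mul_le_mul_of_nonneg_right ?_ h0.le
          have : (range i).filter (fun i => n ≤ i ∧ i < n + w) ⊆ Ico n (n + w) := by
            intro i
            simp only [mem_filter, mem_range, mem_Ico]
            omega
          have := card_le_card this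
          rw [Nat.card_Ico] at this
          exact_mod_cast (by omega)
      have hu1 := hcount u
      have hv1 := hcount v
      have h1 : 0 ≤ ∑ i ∈ range i, (if i ∈ A then (2 : ℤ) ^ i else 0) ∧
          ∑ i ∈ range i, (if i ∈ A then (2 : ℤ) ^ i else 0) ≤ 2 ^ n := by
        constructor
        · exact sum_nonneg fun i _ => by split_ifs <;> positivity
        · rw [← sum_filter]
          calc ∑ j ∈ (range i).filter (· ∈ A), (2 : ℤ) ^ j ≤ ∑ j ∈ A, (2 : ℤ) ^ j := by
                apply sum_le_sum_of_subset_of_nonneg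
                · intro j hj
                  exact (mem_filter.mp hj).2
                · intro j _ _
                  positivity
            _ = r := by rw [← hAr]; push_cast; rfl
            _ ≤ 2 ^ n := hr1'.le
      have huv2 : (u : ℤ) * 2 ^ n + v * 2 ^ n ≤ |Z| + 2 ^ n := by
        have : ((u : ℤ) + v) * 2 ^ n ≤ |Z| + 2 ^ n := by rw [huv0]; exact hB
        linarith
      have hu3 : (0 : ℤ) ≤ u * 2 ^ n := by positivity
      have hv3 : (0 : ℤ) ≤ v * 2 ^ n := by positivity
      rw [abs_le]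
      constructor <;> linarith [hu1.1, hu1.2, hv1.1, hv1.2, h1.1, h1.2]
    · intro t
      split_ifs
      · exact abs_cf_le n t
      · simp

/-- partial sums of the whole block -/
lemma abs_sum_all_le (n N t : ℕ) (ht : t ≤ 2 * N) : |∑ s ∈ range t, cf n s| ≤ 3 * 2 ^ n := by
  have h0 : (0 : ℤ) < 2 ^ n := by positivity
  have := abs_sum_le_of_pairs (cf n) N (2 ^ n) (2 * 2 ^ n) ?_ (abs_cf_le n) (by positivity) t ht
  · linarith
  · intro i hi
    have h1 : ∀ j, cf n (2 * j) + cf n (2 * j + 1) = if j < n then (2 : ℤ) ^ j else 0 := by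
      intro j
      rw [cf_even, cf_odd]
      ring
    simp only [h1]
    rw [← sum_filter, abs_of_nonneg (sum_nonneg fun j _ => by positivity)]
    have h2 : (range i).filter (· < n) ⊆ range n := by
      intro j hj
      exact mem_range.mpr (mem_filter.mp hj).2
    have := two_pow_sum_lt h2
    exact_mod_cast this.le

/-- sum of the whole block -/
lemma sum_all (n P : ℕ) : ∑ s ∈ range (2 * (n + P)), cf n s = 2 ^ n - 1 := by
  rw [sum_pairs]
  have h1 : ∀ j, cf n (2 * j) + cf n (2 * j + 1) = if j < n then (2 : ℤ) ^ j else 0 := by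
    intro j
    rw [cf_even, cf_odd]
    ring
  simp only [h1]
  rw [← sum_filter]
  have : (range (n + P)).filter (· < n) = range n := by
    ext j
    simp only [mem_filter, mem_range]
    omega
  rw [this]
  have h2 := two_pow_sum_range n
  have h3 : (∑ i ∈ range n, (2 : ℤ) ^ i) + 1 = 2 ^ n := by exact_mod_cast h2
  linarith

/-- many parallel terms -/
lemma supply (n P : ℕ) (p : ℤ) (hp : |p| ≤ n) : ∃ G ⊆ range (2 * (n + P)),
    |∑ t ∈ G, cf n t - p * 2 ^ n| ≤ 2 ^ n := by
  have h0 : (0 : ℤ) < 2 ^ n := by positivity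
  rcases le_or_gt 0 p with h | h
  · obtain ⟨m, rfl⟩ := Int.eq_ofNat_of_zero_le h
    rw [abs_of_nonneg h] at hp
    have hm : m ≤ n := by exact_mod_cast hp
    refine ⟨(range m).image (fun i => 2 * i), ?_, ?_⟩
    · intro t ht
      simp only [mem_image, mem_range] at ht ⊢
      obtain ⟨i, hi, rfl⟩ := ht
      omega
    · rw [sum_image (fun a _ b _ h => by simpa using h)]
      simp only [cf_even]
      rw [sum_add_distrib, sum_const, card_range, nsmul_eq_mul]
      have h1 : ∑ i ∈ range m, (if i < n then (2 : ℤ) ^ i else 0) = 2 ^ m - 1 := by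
        have h2 := two_pow_sum_range m
        have h3 : (∑ i ∈ range m, (2 : ℤ) ^ i) + 1 = 2 ^ m := by exact_mod_cast h2
        rw [sum_congr rfl (g := fun i => (2 : ℤ) ^ i)]
        · linarith
        · intro i hi
          rw [if_pos]
          have := mem_range.mp hi
          omega
      rw [h1]
      have h2 : (2 : ℤ) ^ m ≤ 2 ^ n := pow_le_pow_right₀ (by norm_num) hm
      have h3 : (1 : ℤ) ≤ 2 ^ m := one_le_pow₀ (by norm_num)
      rw [show (m : ℤ) * 2 ^ n + (2 ^ m - 1) - (m : ℤ) * 2 ^ n = 2 ^ m - 1 by ring,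
        abs_of_nonneg (by linarith)]
      linarith
  · rw [abs_of_neg h] at hp
    obtain ⟨m, hm'⟩ := Int.eq_ofNat_of_zero_le (show 0 ≤ -p by omega)
    rw [hm'] at hp
    have hm : m ≤ n := by exact_mod_cast hp
    refine ⟨(range m).image (fun i => 2 * i + 1), ?_, ?_⟩
    · intro t ht
      simp only [mem_image, mem_range] at ht ⊢
      obtain ⟨i, hi, rfl⟩ := ht
      omega
    · rw [sum_image (fun a _ b _ h => by simpa using h)]
      simp only [cf_odd]
      rw [sum_const, card_range, nsmul_eq_mul, show p = -(m : ℤ) by omega]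
      rw [show (m : ℤ) * -2 ^ n - -(m : ℤ) * 2 ^ n = 0 by ring, abs_zero]
      exact h0.le

end Q170.AS
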