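import Mathlib
import Pool.Agent.Q170.AS.Blocks
import Pool.Agent.Q170.AS.Comb

/-! The parameters of the series. -/

namespace Q170.AS
open Finset Filter Topology

/-- the data passed from block to block: `D` (a common denominator), `O` (a bound), `T` (the
denominator of the slope) -/
structure St where
  D : ℕ
  O : ℕ
  T : ℕ

def cc (k : ℕ) : ℕ := k + 5
def pP (k : ℕ) (s : St) : ℕ := s.D * cc k * (s.O + 1)
def pn (k : ℕ) (s : St) : ℕ := 4 * (k + 1) * pP k s * s.T
def pQ (k : ℕ) (s : St) : ℕ := 2 ^ (pn k s + 1) * pP k s + cc k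

def st : ℕ → St
  | 0 => ⟨1, 1, 1⟩
  | k + 1 => ⟨(st k).D * cc k,
      (st k).O * pQ k (st k) + (pn k (st k) + pP k (st k) + 1) * 2 ^ (pn k (st k)),
      (st k).T * pQ k (st k)⟩

/-- number of additional parallel copies in block `k` -/
def P (k : ℕ) : ℕ := pP k (st k)
/-- number of digits of block `k` -/
def n (k : ℕ) : ℕ := pn k (st k)
def Q (k : ℕ) : ℕ := pQ k (st k)
/-- the length of block `k` -/
def L (k : ℕ) : ℕ := 2 * (n k + P k)
noncomputable def g (k : ℕ) : ℝ := 1 / Q k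
/-- the first coordinate of the direction of block `k` -/
noncomputable def θ (k : ℕ) : ℝ := (st k).D / (st k).T
noncomputable def b (k : ℕ) : ℝ := 2 ^ n k * g k
noncomputable def γ (k : ℕ) : ℝ := cc k * g k

lemma cc_pos (k : ℕ) : 0 < cc k := by unfold cc; omega

lemma D_pos (k : ℕ) : 0 < (st k).D := by
  induction k with
  | zero => simp [st]
  | succ k ih => simp only [st]; exact Nat.mul_pos ih (cc_pos k)

lemma two_pow_le_D (k : ℕ) : 2 ^ k ≤ (st k).D := by
  induction k with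
  | zero => simp [st]
  | succ k ih =>
    simp only [st]
    rw [pow_succ]
    exact Nat.mul_le_mul ih (by unfold cc; omega)

lemma P_pos (k : ℕ) : 0 < P k := by
  unfold P pP
  exact Nat.mul_pos (Nat.mul_pos (D_pos k) (cc_pos k)) (by omega)

lemma Q_pos (k : ℕ) : 0 < Q k := by
  unfold Q pQ
  have := cc_pos k
  omega

lemma T_pos (k : ℕ) : 0 < (st k).T := by
  induction k with
  | zero => simp [st]
  | succ k ih => simp only [st]; exact Nat.mul_pos ih (Q_pos k)

lemma cc_le_P (k : ℕ) : cc k * ((st k).O + 1) ≤ P k := by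
  unfold P pP
  rw [mul_assoc]
  exact Nat.le_mul_of_pos_left _ (D_pos k)

lemma D_le_P (k : ℕ) : (st k).D ≤ P k := by
  unfold P pP
  rw [mul_assoc]
  exact Nat.le_mul_of_pos_right _ (Nat.mul_pos (cc_pos k) (by omega))

lemma cc_le_P' (k : ℕ) : cc k ≤ P k :=
  (Nat.le_mul_of_pos_right _ (by omega)).trans (cc_le_P k)

lemma P_le_n (k : ℕ) : P k ≤ n k := by
  unfold n pn
  change P k ≤ 4 * (k + 1) * P k * (st k).T
  have h1 : P k ≤ 4 * (k + 1) * P k := Nat.le_mul_of_pos_left _ (by omega)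
  exact h1.trans (Nat.le_mul_of_pos_right _ (T_pos k))

lemma L_pos (k : ℕ) : 0 < L k := by
  unfold L
  have := P_pos k
  omega

lemma Q_eq (k : ℕ) : (Q k : ℝ) = 2 ^ (n k + 1) * P k + cc k := by
  have : Q k = 2 ^ (n k + 1) * P k + cc k := rfl
  rw [this]
  push_cast
  ring

lemma g_pos (k : ℕ) : 0 < g k := by
  unfold g
  have : (0 : ℝ) < Q k := by exact_mod_cast Q_pos k
  positivity

lemma g_mul_Q (k : ℕ) : g k * Q k = 1 := by
  unfold g
  have : (0 : ℝ) < Q k := by exact_mod_cast Q_pos k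
  field_simp

lemma b_pos (k : ℕ) : 0 < b k := by
  unfold b
  have := g_pos k
  positivity

lemma Pb_le (k : ℕ) : 2 * (P k * b k) ≤ 1 := by
  have h1 := g_mul_Q k
  rw [Q_eq] at h1
  have h2 := g_pos k
  have h3 : (0 : ℝ) ≤ cc k := by positivity
  unfold b
  rw [pow_succ] at h1
  nlinarith

lemma cc_le_real (k : ℕ) : (cc k : ℝ) ≤ P k := by exact_mod_cast cc_le_P' k

lemma n_ge (k : ℕ) : k + 10 ≤ n k := by
  have h1 := cc_le_P k
  have hO : 1 ≤ (st k).O := by
    cases k with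
    | zero => simp [st]
    | succ k =>
      simp only [st]
      have : 0 < (pn k (st k) + pP k (st k) + 1) * 2 ^ (pn k (st k)) := by positivity
      omega
  have h2 : cc k * 2 ≤ cc k * ((st k).O + 1) := Nat.mul_le_mul_left _ (by omega)
  have h3 := P_le_n k
  unfold cc at *
  omega

lemma two_pow_n_ge (k : ℕ) : (1024 : ℝ) * 2 ^ k ≤ 2 ^ n k := by
  have h1 : (2 : ℝ) ^ (k + 10) ≤ 2 ^ n k := pow_le_pow_right₀ (by norm_num) (n_ge k)
  rw [pow_add] at h1
  linarith

lemma one_le_P (k : ℕ) : (1 : ℝ) ≤ P k := by exact_mod_cast P_pos k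

lemma le_Pb (k : ℕ) : 2 / 5 ≤ P k * b k := by
  have h1 := g_mul_Q k
  rw [Q_eq] at h1
  have h2 := g_pos k
  have h3 := cc_le_real k
  have h4 := two_pow_n_ge k
  have h5 : (1 : ℝ) ≤ 2 ^ k := one_le_pow₀ (by norm_num)
  unfold b
  rw [pow_succ] at h1
  have h6 : (cc k : ℝ) * g k ≤ P k * g k := mul_le_mul_of_nonneg_right h3 h2.le
  have h7 : 8 * (P k * g k) ≤ 2 ^ n k * (P k * g k) := by
    apply mul_le_mul_of_nonneg_right _ (by positivity)
    linarith
  nlinarith

lemma le_four_Pb (k : ℕ) : 1 ≤ 4 * (P k * b k) := by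
  have := le_Pb k
  linarith

lemma b_le (k : ℕ) : b k ≤ (1 / 2) ^ (k + 1) := by
  have h1 := Pb_le k
  have h2 : ((2 : ℝ) ^ k) ≤ P k := by
    exact_mod_cast (two_pow_le_D k).trans (D_le_P k)
  have h3 : 2 * ((2 : ℝ) ^ k * b k) ≤ 1 := by
    have := mul_le_mul_of_nonneg_right h2 (b_pos k).le
    linarith
  rw [one_div, inv_pow, pow_succ, le_inv_comm₀ (b_pos k) (by positivity)]
  rw [← one_div, le_div_iff₀ (b_pos k)]
  linarith

lemma g_le_b (k : ℕ) : 1024 * g k ≤ b k := by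
  unfold b
  have h4 := two_pow_n_ge k
  have h5 : (1 : ℝ) ≤ 2 ^ k := one_le_pow₀ (by norm_num)
  exact mul_le_mul_of_nonneg_right (by linarith) (g_pos k).le

lemma γ_pos (k : ℕ) : 0 < γ k := by
  unfold γ
  have := g_pos k
  have : (0 : ℝ) < cc k := by exact_mod_cast cc_pos k
  positivity

lemma γ_le (k : ℕ) : 1024 * 2 ^ k * γ k ≤ 1 / 2 := by
  have h1 := Pb_le k
  unfold γ
  unfold b at h1
  have h2 := two_pow_n_ge k
  have h3 : (cc k : ℝ) * g k ≤ P k * g k := mul_le_mul_of_nonneg_right (cc_le_real k) (g_pos k).le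
  have h4 : (0 : ℝ) ≤ cc k * g k := by
    have := g_pos k
    positivity
  calc 1024 * 2 ^ k * (cc k * g k) ≤ 2 ^ n k * (P k * g k) :=
        mul_le_mul h2 h3 h4 (by positivity)
    _ ≤ 1 / 2 := by linarith

lemma γ_le' (k : ℕ) : γ k ≤ 1 / 1000 := by
  have h1 := γ_le k
  have h5 : (1 : ℝ) ≤ 2 ^ k := one_le_pow₀ (by norm_num)
  have h2 := γ_pos k
  nlinarith

lemma γ_le'' (k : ℕ) : γ k ≤ (1 / 2) ^ k := by
  have h1 := γ_le k
  have h5 : (0 : ℝ) < 2 ^ k := by positivity
  have h2 := γ_pos k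
  rw [one_div, inv_pow, ← one_div, le_div_iff₀ h5]
  nlinarith

lemma g_le (k : ℕ) : g k ≤ 1 / 1000 := by
  have h1 := g_le_b k
  have h2 := Pb_le k
  have h3 := one_le_P k
  have h4 := b_pos k
  nlinarith

lemma g_le' (k : ℕ) : g k ≤ (1 / 2) ^ k := by
  have h1 := g_le_b k
  have h2 := b_le k
  have h3 := g_pos k
  have h4 : ((1 : ℝ) / 2) ^ (k + 1) ≤ (1 / 2) ^ k :=
    pow_le_pow_of_le_one (by norm_num) (by norm_num) (by omega)
  linarith

lemma θ_pos (k : ℕ) : 0 < θ k := by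
  unfold θ
  have h1 : (0 : ℝ) < (st k).D := by exact_mod_cast D_pos k
  have h2 : (0 : ℝ) < (st k).T := by exact_mod_cast T_pos k
  positivity

lemma θ_zero : θ 0 = 1 := by simp [θ, st]

lemma θ_succ (k : ℕ) : θ (k + 1) = θ k * γ k := by
  unfold θ γ g
  have h2 : (0 : ℝ) < (st k).T := by exact_mod_cast T_pos k
  have h3 : (0 : ℝ) < Q k := by exact_mod_cast Q_pos k
  have h4 : (st (k + 1)).D = (st k).D * cc k := rfl
  have h5 : (st (k + 1)).T = (st k).T * Q k := rfl
  rw [h4, h5]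
  push_cast
  field_simp

lemma θ_le_one (k : ℕ) : θ k ≤ 1 := by
  induction k with
  | zero => rw [θ_zero]
  | succ k ih =>
    rw [θ_succ]
    have h1 := θ_pos k
    have h2 := γ_le' k
    have h3 := γ_pos k
    nlinarith

lemma θ_succ_le (k : ℕ) : θ (k + 1) ≤ θ k / 2 := by
  rw [θ_succ]
  have h1 := θ_pos k
  have h2 := γ_le' k
  nlinarith

lemma supply_ge (k : ℕ) : (k : ℝ) + 1 ≤ n k * b k * θ k := by
  have h1 := le_four_Pb k
  have h2 : (0 : ℝ) < (st k).T := by exact_mod_cast T_pos k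
  have h3 : (1 : ℝ) ≤ (st k).D := by exact_mod_cast D_pos k
  have h4 : (n k : ℝ) = 4 * (k + 1) * P k * (st k).T := by
    have : n k = 4 * (k + 1) * P k * (st k).T := rfl
    rw [this]
    push_cast
    ring
  unfold θ
  rw [h4]
  have h5 : 4 * ((k : ℝ) + 1) * P k * (st k).T * b k * ((st k).D / (st k).T) =
      (k + 1) * (4 * (P k * b k)) * (st k).D := by
    field_simp
  rw [h5]
  have h6 : (k : ℝ) + 1 ≤ (k + 1) * (4 * (P k * b k)) := by
    have : (0 : ℝ) < (k : ℝ) + 1 := by positivity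
    nlinarith
  have h7 : (0 : ℝ) ≤ (k + 1) * (4 * (P k * b k)) := by
    have : (0 : ℝ) < (k : ℝ) + 1 := by positivity
    linarith
  nlinarith

lemma tendsto_b : Tendsto b atTop (𝓝 0) := by
  have h1 : Tendsto (fun k : ℕ => ((1 : ℝ) / 2) ^ (k + 1)) atTop (𝓝 0) :=
    (tendsto_pow_atTop_nhds_zero_of_lt_one (by norm_num) (by norm_num)).comp
      (tendsto_add_atTop_nat 1)
  exact squeeze_zero (fun k => (b_pos k).le) b_le h1

lemma tendsto_g : Tendsto g atTop (𝓝 0) :=
  squeeze_zero (fun k => (g_pos k).le) g_le'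
    (tendsto_pow_atTop_nhds_zero_of_lt_one (by norm_num) (by norm_num))

lemma tendsto_γ : Tendsto γ atTop (𝓝 0) :=
  squeeze_zero (fun k => (γ_pos k).le) γ_le''
    (tendsto_pow_atTop_nhds_zero_of_lt_one (by norm_num) (by norm_num))

lemma θ_le_pow (k : ℕ) : θ k ≤ (1 / 2) ^ k := by
  induction k with
  | zero => rw [θ_zero]; simp
  | succ k ih =>
    rw [pow_succ]
    have := θ_succ_le k
    linarith

lemma tendsto_θ : Tendsto θ atTop (𝓝 0) :=
  squeeze_zero (fun k => (θ_pos k).le) θ_le_pow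
    (tendsto_pow_atTop_nhds_zero_of_lt_one (by norm_num) (by norm_num))

/-- the direction of block `k` -/
noncomputable def v (k : ℕ) : Fin 2 → ℝ := ![θ k, 1]

/-- **The series.** -/
noncomputable def x (m : ℕ) : Fin 2 → ℝ :=
  ((cf (n (blk L m)) (m - M L (blk L m)) : ℝ) * g (blk L m)) • v (blk L m)

lemma x_blk (k t : ℕ) (ht : t < L k) :
    x (M L k + t) = ((cf (n k) t : ℝ) * g k) • v k := by
  unfold x
  rw [blk_add L_pos k t ht, Nat.add_sub_cancel_left]

lemma norm_v (k : ℕ) : ‖v k‖ = 1 := by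
  apply le_antisymm
  · rw [pi_norm_le_iff_of_nonneg (by norm_num)]
    intro i
    fin_cases i
    · simp only [v]
      have h1 := θ_pos k
      have h2 := θ_le_one k
      simp [abs_of_pos h1, h2]
    · simp [v]
  · have := norm_le_pi_norm (v k) 1
    simpa [v] using this

open Classical in
lemma sum_blk (k r : ℕ) (hr : r ≤ L k) (p : ℕ → Prop) :
    ∑ t ∈ range r, (if p t then x (M L k + t) else 0) =
      (((∑ t ∈ range r, (if p t then cf (n k) t else 0) : ℤ) : ℝ) * g k) • v k := by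
  push_cast
  rw [sum_mul, sum_smul]
  apply sum_congr rfl
  intro t ht
  have ht' := mem_range.mp ht
  split_ifs
  · rw [x_blk k t (by omega)]
  · simp

end Q170.AS
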