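import Mathlib
import Pool.Agent.Q170.AS.Par

/-! The achievement set misses the vertical line through `(1, 0)`. -/

namespace Q170.AS
open Finset Filter Topology

open Classical in
/-- block sums of a subseries -/
lemma tendsto_block_sums (p : ℕ → Prop) (s : Fin 2 → ℝ)
    (h : Tendsto (fun m => ∑ i ∈ range m, (if p i then x i else 0)) atTop (𝓝 s)) :
    ∃ y : ℕ → ℤ, (∀ k, ∃ p' : ℕ → Prop,
        y k = ∑ t ∈ range (2 * (n k + P k)), (if p' t then cf (n k) t else 0)) ∧
      Tendsto (fun k => ∑ j ∈ range k, (y j : ℝ) * g j) atTop (𝓝 (s 1)) ∧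
      Tendsto (fun k => ∑ j ∈ range k, θ j * ((y j : ℝ) * g j)) atTop (𝓝 (s 0)) := by
  refine ⟨fun k => ∑ t ∈ range (2 * (n k + P k)), (if p (M L k + t) then cf (n k) t else 0),
    fun k => ⟨fun t => p (M L k + t), rfl⟩, ?_, ?_⟩
  all_goals
    have h1 := h.comp (tendsto_M L_pos)
    have h2 : ((fun m => ∑ i ∈ range m, (if p i then x i else 0)) ∘ M L) = fun k =>
        ∑ j ∈ range k, (((∑ t ∈ range (2 * (n j + P j)),
          (if p (M L j + t) then cf (n j) t else 0) : ℤ) : ℝ) * g j) • v j := by
      funext k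
      simp only [Function.comp]
      rw [sum_blocks]
      exact sum_congr rfl fun j _ => sum_blk j (L j) le_rfl (fun t => p (M L j + t))
    rw [h2, tendsto_pi_nhds] at h1
  · have h3 := h1 1
    refine h3.congr fun k => ?_
    rw [Finset.sum_apply]
    simp [v]
  · have h3 := h1 0
    refine h3.congr fun k => ?_
    rw [Finset.sum_apply]
    simp [v, mul_comm]

open Classical in
/-- **The achievement set misses a line.** -/
theorem miss (p : ℕ → Prop) (s : Fin 2 → ℝ)
    (h : Tendsto (fun m => ∑ i ∈ range m, (if p i then x i else 0)) atTop (𝓝 s)) : s 0 ≠ 1 := by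
  intro hs
  obtain ⟨y, hy, h1, h0⟩ := tendsto_block_sums p s h
  rw [hs] at h0
  set o : ℕ → ℝ := fun k => (1 - ∑ j ∈ range k, θ j * ((y j : ℝ) * g j)) / θ k with ho
  have hosucc : ∀ k, o (k + 1) = (o k * Q k - y k) / cc k := by
    intro k
    simp only [ho]
    rw [sum_range_succ, θ_succ]
    have h1 := θ_pos k
    have h2 := g_mul_Q k
    have h3 := g_pos k
    have h4 : (0 : ℝ) < cc k := by exact_mod_cast cc_pos k
    have h5 : (Q k : ℝ) = 1 / g k := by
      field_simp
      linarith
    rw [h5]
    unfold γ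
    field_simp
    ring
  have key : ∀ k, 1 ≤ |o k| ∧ |o k| ≤ (st k).O ∧ ∃ z : ℤ, (st k).D * o k = z := by
    intro k
    induction k with
    | zero =>
      have : o 0 = 1 := by simp [ho, θ_zero]
      rw [this]
      refine ⟨by norm_num, by simp [st], 1, by simp [st]⟩
    | succ k ih =>
      obtain ⟨ih1, ih2, z, hz⟩ := ih
      have hc : (0 : ℝ) < cc k := by exact_mod_cast cc_pos k
      obtain ⟨p', hp'⟩ := hy k
      have hP2 : cc k * (|o k| + 1) + 1 ≤ (2 : ℝ) ^ P k := by
        have h2 : cc k * ((st k).O + 1) + 1 ≤ 2 ^ P k := by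
          have := cc_le_P k
          have := Nat.lt_two_pow_self (n := P k)
          omega
        have h3 : (cc k : ℝ) * ((st k).O + 1) + 1 ≤ 2 ^ P k := by exact_mod_cast h2
        nlinarith
      have hole := hole (n k) (P k) (cc k) (P_le_n k) p' (o k)
        (2 * (cc k * ((st k).O + 1)) * z) (by
          have h2 : (P k : ℝ) = (st k).D * cc k * ((st k).O + 1) := by
            have : P k = (st k).D * cc k * ((st k).O + 1) := rfl
            rw [this]; push_cast; ring
          rw [h2]
          push_cast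
          linear_combination 2 * (cc k * ((st k).O + 1)) * hz) ih1 hP2 (P_pos k)
      rw [← hp', ← Q_eq] at hole
      rw [hosucc]
      refine ⟨?_, ?_, ?_⟩
      · rw [abs_div, abs_of_pos hc, le_div_iff₀ hc]
        linarith
      · rw [abs_div, abs_of_pos hc]
        have h2 : |o k * Q k - y k| ≤ (st (k + 1)).O := by
          have h3 := abs_sum_subset_le (n k) (P k) p'
          rw [← hp'] at h3
          have h4 : |(y k : ℝ)| ≤ (n k + P k + 1) * 2 ^ n k := by exact_mod_cast h3
          have h5 : ((st (k + 1)).O : ℝ) = (st k).O * Q k + (n k + P k + 1) * 2 ^ n k := by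
            have : (st (k + 1)).O = (st k).O * Q k + (n k + P k + 1) * 2 ^ n k := rfl
            rw [this]; push_cast; ring
          rw [h5]
          have h6 : |o k * Q k| ≤ (st k).O * Q k := by
            rw [abs_mul, abs_of_nonneg (show (0 : ℝ) ≤ Q k by positivity)]
            exact mul_le_mul_of_nonneg_right ih2 (by positivity)
          have h7 := abs_sub (o k * Q k) (y k : ℝ)
          linarith
        rw [div_le_iff₀ hc]
        have h8 : (1 : ℝ) ≤ cc k := by
          have : 1 ≤ cc k := cc_pos k
          exact_mod_cast this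
        have h9 : (0 : ℝ) ≤ (st (k + 1)).O := by positivity
        nlinarith
      · refine ⟨z * Q k - (st k).D * y k, ?_⟩
        have : (st (k + 1)).D = (st k).D * cc k := rfl
        rw [this]
        push_cast
        field_simp
        linear_combination (Q k : ℝ) * hz
  -- the terms of the second coordinate tend to zero
  have hY : Tendsto (fun k => (y k : ℝ) * g k) atTop (𝓝 0) := by
    have h2 := (h1.comp (tendsto_add_atTop_nat 1)).sub h1
    rw [sub_self] at h2
    refine h2.congr fun k => ?_
    simp only [Function.comp]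
    rw [sum_range_succ]
    ring
  obtain ⟨K, hK⟩ := Metric.tendsto_atTop.mp hY (1 / 4) (by norm_num)
  have hK' : ∀ j ≥ K, |(y j : ℝ) * g j| ≤ 1 / 4 := by
    intro j hj
    have := hK j hj
    rw [Real.dist_eq, sub_zero] at this
    exact this.le
  have htail : ∀ m, |∑ j ∈ range (K + m), θ j * ((y j : ℝ) * g j) -
      ∑ j ∈ range K, θ j * ((y j : ℝ) * g j)| ≤ (θ K - θ (K + m)) / 2 := by
    intro m
    induction m with
    | zero => simp
    | succ m ih =>
      rw [← add_assoc, sum_range_succ]
      have h2 : |θ (K + m) * ((y (K + m) : ℝ) * g (K + m))| ≤ θ (K + m) / 4 := by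
        rw [abs_mul, abs_of_pos (θ_pos _)]
        have := hK' (K + m) (by omega)
        have := θ_pos (K + m)
        nlinarith
      have h3 := θ_succ_le (K + m)
      have h4 := abs_add_le (∑ j ∈ range (K + m), θ j * ((y j : ℝ) * g j) -
        ∑ j ∈ range K, θ j * ((y j : ℝ) * g j)) (θ (K + m) * ((y (K + m) : ℝ) * g (K + m)))
      rw [show ∑ j ∈ range (K + m), θ j * ((y j : ℝ) * g j) + θ (K + m) * (↑(y (K + m)) * g (K + m))
        - ∑ j ∈ range K, θ j * ((y j : ℝ) * g j) = (∑ j ∈ range (K + m), θ j * ((y j : ℝ) * g j) -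
        ∑ j ∈ range K, θ j * ((y j : ℝ) * g j)) + θ (K + m) * (↑(y (K + m)) * g (K + m)) by ring]
      linarith
  have hlim : |1 - ∑ j ∈ range K, θ j * ((y j : ℝ) * g j)| ≤ θ K / 2 := by
    have h2 : Tendsto (fun m => |∑ j ∈ range (K + m), θ j * ((y j : ℝ) * g j) -
        ∑ j ∈ range K, θ j * ((y j : ℝ) * g j)|) atTop
        (𝓝 |1 - ∑ j ∈ range K, θ j * ((y j : ℝ) * g j)|) := by
      have h3 := (h0.comp (tendsto_add_atTop_nat K)).sub_const
        (∑ j ∈ range K, θ j * ((y j : ℝ) * g j))
      have h4 := h3.abs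
      refine h4.congr fun m => ?_
      simp only [Function.comp]
      rw [add_comm m K]
    refine le_of_tendsto h2 (Eventually.of_forall fun m => ?_)
    have h3 := htail m
    have h4 := θ_pos (K + m)
    linarith
  have h2 := (key K).1
  have h3 : |o K| ≤ 1 / 2 := by
    simp only [ho]
    rw [abs_div, abs_of_pos (θ_pos K), div_le_iff₀ (θ_pos K)]
    linarith
  linarith

end Q170.AS
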