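import Mathlib
import Pool.Agent.Q170.AS.Par

/-! The achievement set contains a neighbourhood of the origin. -/

namespace Q170.AS
open Finset Filter Topology

/-- the chosen integer in block `k` from the two remainders -/
noncomputable def zf (k : ℕ) (s : ℝ × ℝ) : ℤ := round ((s.1 - γ k * (s.2 - s.1)) / g k)

/-- the remainders `(o_k, y_k)` -/
noncomputable def rem (X Y : ℝ) : ℕ → ℝ × ℝ
  | 0 => (X, Y)
  | k + 1 => (((rem X Y k).1 - zf k (rem X Y k) * g k) / γ k,
      (rem X Y k).2 - zf k (rem X Y k) * g k)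

lemma half_cc (k : ℕ) : 1 / (2 * (cc k : ℝ)) ≤ 1 / 10 := by
  have : (5 : ℝ) ≤ cc k := by
    have : 5 ≤ cc k := by unfold cc; omega
    exact_mod_cast this
  rw [div_le_div_iff₀ (by positivity) (by norm_num)]
  linarith

lemma tendsto_half_cc : Tendsto (fun k => 1 / (2 * (cc k : ℝ))) atTop (𝓝 0) := by
  have h1 : Tendsto (fun k : ℕ => (k : ℝ)) atTop atTop := tendsto_natCast_atTop_atTop
  have h2 : Tendsto (fun k : ℕ => 2 * (cc k : ℝ)) atTop atTop := by
    refine tendsto_atTop_mono (fun k => ?_) h1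
    unfold cc
    push_cast
    have : (0 : ℝ) ≤ k := by positivity
    linarith
  have h3 := h2.inv_tendsto_atTop
  refine h3.congr fun k => ?_
  simp

/-- one step -/
lemma step_bounds (X Y : ℝ) (k : ℕ) :
    ∃ ρ : ℝ, |ρ| ≤ g k / 2 ∧ |ρ / γ k| ≤ 1 / (2 * (cc k : ℝ)) ∧
      (zf k (rem X Y k) : ℝ) * g k = (rem X Y k).1 - γ k * ((rem X Y k).2 - (rem X Y k).1) + ρ ∧
      (rem X Y (k + 1)).1 = ((rem X Y k).2 - (rem X Y k).1) - ρ / γ k ∧
      (rem X Y (k + 1)).2 = ((rem X Y k).2 - (rem X Y k).1) +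
        γ k * ((rem X Y k).2 - (rem X Y k).1) - ρ := by
  set o := (rem X Y k).1 with ho
  set y := (rem X Y k).2 with hy
  have hg := g_pos k
  have hγ := γ_pos k
  have hc : (0 : ℝ) < cc k := by exact_mod_cast cc_pos k
  have h1 : |(o - γ k * (y - o)) / g k - zf k (rem X Y k)| ≤ 1 / 2 := abs_sub_round _
  refine ⟨(zf k (rem X Y k) : ℝ) * g k - (o - γ k * (y - o)), ?_, ?_, by ring, ?_, ?_⟩
  · have h2 : (zf k (rem X Y k) : ℝ) * g k - (o - γ k * (y - o)) =
        -(((o - γ k * (y - o)) / g k - zf k (rem X Y k)) * g k) := by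
      field_simp
      ring
    rw [h2, abs_neg, abs_mul, abs_of_pos hg]
    nlinarith
  · have h2 : ((zf k (rem X Y k) : ℝ) * g k - (o - γ k * (y - o))) / γ k =
        -(((o - γ k * (y - o)) / g k - zf k (rem X Y k)) / cc k) := by
      rw [div_eq_iff hγ.ne']
      have : γ k = cc k * g k := rfl
      rw [this]
      field_simp
      ring
    rw [h2, abs_neg, abs_div, abs_of_pos hc, div_le_div_iff₀ hc (by positivity)]
    nlinarith
  · change (o - zf k (rem X Y k) * g k) / γ k = _
    field_simp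
    ring
  · change y - zf k (rem X Y k) * g k = _
    ring

lemma rem_bounds (X Y : ℝ) (hX : |X| ≤ 1 / 20) (hY : |Y| ≤ 1 / 20) (k : ℕ) :
    |(rem X Y k).2 - (rem X Y k).1| ≤ 3 / 20 ∧ |(rem X Y k).1| ≤ 1 / 4 := by
  induction k with
  | zero =>
    simp only [rem]
    have := abs_sub Y X
    constructor <;> linarith
  | succ k ih =>
    obtain ⟨ρ, h1, h2, -, h4, h5⟩ := step_bounds X Y k
    obtain ⟨ih1, ih2⟩ := ih
    set z := (rem X Y k).2 - (rem X Y k).1 with hz
    have h6 := half_cc k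
    have h7 := γ_le' k
    have h8 := γ_pos k
    have h9 := g_le k
    have h10 : |γ k * z| ≤ 3 / 20000 := by
      rw [abs_mul, abs_of_pos h8]
      nlinarith [abs_nonneg z]
    rw [h4, h5]
    constructor
    · rw [show z + γ k * z - ρ - (z - ρ / γ k) = γ k * z - ρ + ρ / γ k by ring]
      have := abs_add_le (γ k * z - ρ) (ρ / γ k)
      have := abs_sub (γ k * z) ρ
      linarith
    · have := abs_sub z (ρ / γ k)
      linarith

lemma tendsto_z (X Y : ℝ) (hX : |X| ≤ 1 / 20) (hY : |Y| ≤ 1 / 20) :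
    Tendsto (fun k => (rem X Y k).2 - (rem X Y k).1) atTop (𝓝 0) := by
  rw [← tendsto_add_atTop_iff_nat 1]
  have h0 : Tendsto (fun k => γ k * (3 / 20) + g k / 2 + 1 / (2 * (cc k : ℝ))) atTop (𝓝 0) := by
    have := ((tendsto_γ.mul_const (3 / 20)).add (tendsto_g.div_const 2)).add tendsto_half_cc
    simpa using this
  refine squeeze_zero_norm (fun k => ?_) h0
  obtain ⟨ρ, h1, h2, -, h4, h5⟩ := step_bounds X Y k
  obtain ⟨ih1, ih2⟩ := rem_bounds X Y hX hY k
  set z := (rem X Y k).2 - (rem X Y k).1 with hz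
  rw [h4, h5, Real.norm_eq_abs,
    show z + γ k * z - ρ - (z - ρ / γ k) = γ k * z - ρ + ρ / γ k by ring]
  have h8 := γ_pos k
  have h10 : |γ k * z| ≤ γ k * (3 / 20) := by
    rw [abs_mul, abs_of_pos h8]
    nlinarith [abs_nonneg z]
  have := abs_add_le (γ k * z - ρ) (ρ / γ k)
  have := abs_sub (γ k * z) ρ
  linarith

lemma tendsto_o (X Y : ℝ) (hX : |X| ≤ 1 / 20) (hY : |Y| ≤ 1 / 20) :
    Tendsto (fun k => (rem X Y k).1) atTop (𝓝 0) := by
  rw [← tendsto_add_atTop_iff_nat 1]
  have h0 : Tendsto (fun k => |(rem X Y k).2 - (rem X Y k).1| + 1 / (2 * (cc k : ℝ))) atTop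
      (𝓝 0) := by
    have := (tendsto_z X Y hX hY).abs.add tendsto_half_cc
    simpa using this
  refine squeeze_zero_norm (fun k => ?_) h0
  obtain ⟨ρ, h1, h2, -, h4, h5⟩ := step_bounds X Y k
  rw [h4, Real.norm_eq_abs]
  have := abs_sub ((rem X Y k).2 - (rem X Y k).1) (ρ / γ k)
  linarith

lemma tendsto_y (X Y : ℝ) (hX : |X| ≤ 1 / 20) (hY : |Y| ≤ 1 / 20) :
    Tendsto (fun k => (rem X Y k).2) atTop (𝓝 0) := by
  have := (tendsto_z X Y hX hY).add (tendsto_o X Y hX hY)
  rw [add_zero] at this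
  exact this.congr fun k => by ring

lemma tendsto_Y (X Y : ℝ) (hX : |X| ≤ 1 / 20) (hY : |Y| ≤ 1 / 20) :
    Tendsto (fun k => |(zf k (rem X Y k) : ℝ) * g k|) atTop (𝓝 0) := by
  have h1 := (tendsto_y X Y hX hY).sub ((tendsto_y X Y hX hY).comp (tendsto_add_atTop_nat 1))
  rw [sub_zero] at h1
  have h2 := h1.abs
  rw [abs_zero] at h2
  refine h2.congr fun k => ?_
  simp only [Function.comp]
  change |(rem X Y k).2 - ((rem X Y k).2 - zf k (rem X Y k) * g k)| = _
  rw [sub_sub_cancel]

lemma zf_bound (X Y : ℝ) (hX : |X| ≤ 1 / 20) (hY : |Y| ≤ 1 / 20) (k : ℕ) :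
    |zf k (rem X Y k)| ≤ P k * 2 ^ n k := by
  obtain ⟨ρ, h1, h2, h3, -, -⟩ := step_bounds X Y k
  obtain ⟨ih1, ih2⟩ := rem_bounds X Y hX hY k
  set z := (rem X Y k).2 - (rem X Y k).1 with hz
  have h7 := γ_le' k
  have h8 := γ_pos k
  have h9 := g_le k
  have h10 : |γ k * z| ≤ 3 / 20000 := by
    rw [abs_mul, abs_of_pos h8]
    nlinarith [abs_nonneg z]
  have h11 : |(zf k (rem X Y k) : ℝ) * g k| ≤ 2 / 5 := by
    rw [h3]
    have := abs_add_le ((rem X Y k).1 - γ k * z) ρ
    have := abs_sub (rem X Y k).1 (γ k * z)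
    linarith
  have h12 := le_Pb k
  rw [abs_mul, abs_of_pos (g_pos k)] at h11
  unfold b at h12
  have h13 : |(zf k (rem X Y k) : ℝ)| * g k ≤ (P k * 2 ^ n k) * g k := by linarith
  have h14 := le_of_mul_le_mul_right h13 (g_pos k)
  exact_mod_cast h14

open Classical in
/-- **A neighbourhood of the origin is achieved.** -/
theorem near (X Y : ℝ) (hX : |X| ≤ 1 / 20) (hY : |Y| ≤ 1 / 20) :
    ∃ p : ℕ → Prop, Tendsto (fun m => ∑ i ∈ range m, (if p i then x i else 0)) atTop
      (𝓝 ![X, Y]) := by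
  choose p hp1 hp2 using fun k => select (n k) (P k) (zf k (rem X Y k)) (zf_bound X Y hX hY k)
  let q : ℕ → Prop := fun m => p (blk L m) (m - M L (blk L m))
  have hq : ∀ k t, t < L k → (q (M L k + t) ↔ p k t) := by
    intro k t ht
    change p (blk L (M L k + t)) (M L k + t - M L (blk L (M L k + t))) ↔ _
    rw [blk_add L_pos k t ht, Nat.add_sub_cancel_left]
  have hF : ∀ k r, r ≤ L k → ∑ t ∈ range r, (if q (M L k + t) then x (M L k + t) else 0) =
      (((∑ t ∈ range r, (if p k t then cf (n k) t else 0) : ℤ) : ℝ) * g k) • v k := by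
    intro k r hr
    rw [← sum_blk k r hr (p k)]
    apply sum_congr rfl
    intro t ht
    have := mem_range.mp ht
    simp only [hq k t (by omega)]
  refine ⟨q, ?_⟩
  refine tendsto_blocks L_pos (fun i => if q i then x i else 0) ![X, Y]
    (fun k => |(zf k (rem X Y k) : ℝ) * g k| + 4 * b k) ?_ ?_ ?_
  · have h1 : ∀ k, ∑ j ∈ range k, ∑ t ∈ range (L j),
        (if q (M L j + t) then x (M L j + t) else 0) =
        ![X - θ k * (rem X Y k).1, Y - (rem X Y k).2] := by
      intro k
      induction k with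
      | zero =>
        funext i
        fin_cases i <;> simp [rem, θ_zero]
      | succ k ih =>
        rw [sum_range_succ, ih, hF k (L k) le_rfl]
        have := hp1 k
        have h2 : ∑ t ∈ range (L k), (if p k t then cf (n k) t else 0) = zf k (rem X Y k) := this
        rw [h2]
        have hγ := γ_pos k
        have e1 : (rem X Y (k + 1)).1 = ((rem X Y k).1 - zf k (rem X Y k) * g k) / γ k := rfl
        have e2 : (rem X Y (k + 1)).2 = (rem X Y k).2 - zf k (rem X Y k) * g k := rfl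
        rw [e1, e2, θ_succ]
        funext i
        fin_cases i
        · simp only [v, Fin.zero_eta, Pi.add_apply, Pi.smul_apply, Matrix.cons_val_zero,
            smul_eq_mul]
          field_simp
          ring
        · simp only [v, Fin.mk_one, Pi.add_apply, Pi.smul_apply, Matrix.cons_val_one,
            smul_eq_mul, Matrix.cons_val_fin_one]
          ring
    have h3 : Tendsto (fun k => ![X - θ k * (rem X Y k).1, Y - (rem X Y k).2]) atTop
        (𝓝 ![X, Y]) := by
      rw [tendsto_pi_nhds]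
      intro i
      fin_cases i
      · have := (tendsto_θ.mul (tendsto_o X Y hX hY)).const_sub X
        simpa using this
      · have := (tendsto_y X Y hX hY).const_sub Y
        simpa using this
    exact h3.congr fun k => (h1 k).symm
  · have := (tendsto_Y X Y hX hY).add (tendsto_b.const_mul 4)
    simpa using this
  · intro k t ht
    have h1 := hp2 k t ht
    rw [hF k t ht, norm_smul, norm_v, mul_one, Real.norm_eq_abs, abs_mul, abs_of_pos (g_pos k),
      abs_mul, abs_of_pos (g_pos k)]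
    have h2 : |((∑ s ∈ range t, (if p k s then cf (n k) s else 0) : ℤ) : ℝ)| ≤
        |(zf k (rem X Y k) : ℝ)| + 4 * 2 ^ n k := by exact_mod_cast h1
    have h3 := mul_le_mul_of_nonneg_right h2 (g_pos k).le
    unfold b
    linarith

end Q170.AS
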