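import Mathlib
import Pool.Agent.Q170.AS.Par
import Pool.Agent.Q92.Rearr

/-! The series converges conditionally and its sum range is the whole plane. -/

namespace Q170.AS
open Finset Filter Topology

lemma sum_blk_all (k r : ℕ) (hr : r ≤ L k) :
    ∑ t ∈ range r, x (M L k + t) = (((∑ t ∈ range r, cf (n k) t : ℤ) : ℝ) * g k) • v k := by
  classical
  have := sum_blk k r hr (fun _ => True)
  simpa using this

/-- **The series converges.** -/
theorem converges : ∃ s, Tendsto (fun m => ∑ i ∈ range m, x i) atTop (𝓝 s) := by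
  have h1 : Summable (fun k => (((∑ t ∈ range (L k), cf (n k) t : ℤ) : ℝ) * g k) • v k) := by
    refine Summable.of_norm_bounded (g := fun k => ((1 : ℝ) / 2) ^ k) ?_ fun k => ?_
    · exact summable_geometric_of_lt_one (by norm_num) (by norm_num)
    · rw [norm_smul, norm_v, mul_one, Real.norm_eq_abs, abs_mul, abs_of_pos (g_pos k)]
      have h2 : ∑ t ∈ range (L k), cf (n k) t = 2 ^ n k - 1 := sum_all (n k) (P k)
      rw [h2]
      push_cast
      have h3 : (1 : ℝ) ≤ 2 ^ n k := one_le_pow₀ (by norm_num)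
      rw [abs_of_nonneg (by linarith)]
      have h4 := b_le k
      have h5 : ((1 : ℝ) / 2) ^ (k + 1) ≤ (1 / 2) ^ k :=
        pow_le_pow_of_le_one (by norm_num) (by norm_num) (by omega)
      have h6 := g_pos k
      unfold b at h4
      nlinarith
  refine ⟨∑' k, (((∑ t ∈ range (L k), cf (n k) t : ℤ) : ℝ) * g k) • v k,
    tendsto_blocks L_pos x _ (fun k => 3 * b k) ?_ ?_ ?_⟩
  · have h2 := h1.hasSum.tendsto_sum_nat
    refine h2.congr fun k => ?_
    exact sum_congr rfl fun j _ => (sum_blk_all j (L j) le_rfl).symm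
  · have := tendsto_b.const_mul 3
    simpa using this
  · intro k t ht
    rw [sum_blk_all k t ht, norm_smul, norm_v, mul_one, Real.norm_eq_abs, abs_mul,
      abs_of_pos (g_pos k)]
    have h2 := abs_sum_all_le (n k) (n k + P k) t ht
    have h3 : |((∑ s ∈ range t, cf (n k) s : ℤ) : ℝ)| ≤ 3 * 2 ^ n k := by exact_mod_cast h2
    have h4 := mul_le_mul_of_nonneg_right h3 (g_pos k).le
    unfold b
    linarith

/-- the terms tend to zero -/
lemma tendsto_x : Tendsto x atTop (𝓝 0) := by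
  obtain ⟨s, hs⟩ := converges
  have h1 := (hs.comp (tendsto_add_atTop_nat 1)).sub hs
  rw [sub_self] at h1
  refine h1.congr fun k => ?_
  simp only [Function.comp]
  rw [sum_range_succ, add_sub_cancel_left]

/-- **The series does not converge absolutely.** -/
theorem not_summable : ¬ Summable (fun m => ‖x m‖) := by
  intro h
  have h1 := h.hasSum.tendsto_sum_nat
  have h2 := h1.comp (tendsto_M L_pos)
  have h3 := (h2.comp (tendsto_add_atTop_nat 1)).sub h2
  rw [sub_self] at h3
  have h4 : ∀ k, (1 : ℝ) ≤ ((fun m => ∑ i ∈ range m, ‖x i‖) ∘ M L) (k + 1) -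
      ((fun m => ∑ i ∈ range m, ‖x i‖) ∘ M L) k := by
    intro k
    simp only [Function.comp]
    rw [M_succ, sum_range_add, add_sub_cancel_left]
    have h5 : ∀ t ∈ range (L k), b k ≤ ‖x (M L k + t)‖ := by
      intro t ht
      rw [x_blk k t (mem_range.mp ht), norm_smul, norm_v, mul_one, Real.norm_eq_abs, abs_mul,
        abs_of_pos (g_pos k)]
      have h6 : (2 : ℝ) ^ n k ≤ |(cf (n k) t : ℝ)| := by exact_mod_cast le_abs_cf (n k) t
      exact mul_le_mul_of_nonneg_right h6 (g_pos k).le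
    refine le_trans ?_ (sum_le_sum h5)
    rw [sum_const, card_range, nsmul_eq_mul]
    have h6 := supply_ge k
    have h7 : (n k : ℝ) ≤ L k := by
      have : n k ≤ L k := by unfold L; omega
      exact_mod_cast this
    have h8 := θ_le_one k
    have h9 := θ_pos k
    have h10 := b_pos k
    have h11 : (0 : ℝ) ≤ n k * b k := by positivity
    have h12 : (n k : ℝ) * b k * θ k ≤ n k * b k := by nlinarith
    have h13 : (n k : ℝ) * b k ≤ L k * b k := mul_le_mul_of_nonneg_right h7 h10.le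
    have h14 : (0 : ℝ) ≤ k := by positivity
    linarith
  have h5 := ge_of_tendsto h3 (Eventually.of_forall fun k => h4 k)
  linarith

/-- the error of the approximation -/
noncomputable def err (C : ℝ) (k : ℕ) : ℝ :=
  2 * b k + 2 * b (k + 1) + (C + 1) * θ (k + 1) + (C + 1) * γ k

lemma tendsto_err (C : ℝ) : Tendsto (err C) atTop (𝓝 0) := by
  have h1 := ((tendsto_b.const_mul 2).add
    ((tendsto_b.comp (tendsto_add_atTop_nat 1)).const_mul 2)).add
    ((tendsto_θ.comp (tendsto_add_atTop_nat 1)).const_mul (C + 1))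
  have h2 := h1.add (tendsto_γ.const_mul (C + 1))
  simp only [mul_zero, add_zero] at h2
  exact h2

/-- the sum over a subset of a block -/
lemma sum_image_blk (k : ℕ) (G : Finset ℕ) (hG : G ⊆ range (L k)) :
    ∑ m ∈ G.image (fun t => M L k + t), x m = (((∑ t ∈ G, cf (n k) t : ℤ) : ℝ) * g k) • v k := by
  rw [sum_image (fun a _ b _ h => by simpa using h)]
  push_cast
  rw [sum_mul, sum_smul]
  exact sum_congr rfl fun t ht => x_blk k t (mem_range.mp (hG ht))

/-- **Approximation** of an arbitrary vector by a finite sum over two consecutive blocks. -/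
lemma approx (C : ℝ) (hC : 0 ≤ C) (D : Fin 2 → ℝ) (h0 : |D 0| ≤ C) (h1 : |D 1| ≤ C) (k : ℕ)
    (hk : 2 * C + 2 ≤ k) : ∃ G ⊆ Ico (M L k) (M L (k + 2)), ‖∑ m ∈ G, x m - D‖ ≤ err C k := by
  have hb := b_pos k
  have hb' := b_pos (k + 1)
  have hθ := θ_pos k
  have hθ' := θ_pos (k + 1)
  have hθ1 := θ_le_one k
  have hθ1' := θ_le_one (k + 1)
  have hγ := γ_pos k
  have hγ1 := γ_le' k
  have hθs := θ_succ k
  have hb1 : b k ≤ 1 := (b_le k).trans (pow_le_one₀ (by norm_num) (by norm_num))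
  have hb1' : b (k + 1) ≤ 1 := (b_le (k + 1)).trans (pow_le_one₀ (by norm_num) (by norm_num))
  have hbθ : 0 < b k * θ k := by positivity
  set p : ℤ := round (D 0 / (b k * θ k)) with hp
  set q : ℤ := round ((D 1 - p * b k) / b (k + 1)) with hq
  have hp1 : |p * (b k * θ k) - D 0| ≤ b k * θ k / 2 := by
    have h2 : |D 0 / (b k * θ k) - p| ≤ 1 / 2 := abs_sub_round _
    rw [show (p : ℝ) * (b k * θ k) - D 0 = -((D 0 / (b k * θ k) - p) * (b k * θ k)) by
      field_simp; ring, abs_neg, abs_mul, abs_of_pos hbθ]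
    nlinarith
  have hq1 : |q * b (k + 1) - (D 1 - p * b k)| ≤ b (k + 1) / 2 := by
    have h2 : |(D 1 - p * b k) / b (k + 1) - q| ≤ 1 / 2 := abs_sub_round _
    rw [show (q : ℝ) * b (k + 1) - (D 1 - p * b k) =
      -(((D 1 - p * b k) / b (k + 1) - q) * b (k + 1)) by
      field_simp; ring, abs_neg, abs_mul, abs_of_pos hb']
    nlinarith
  have hbθ1 : b k * θ k ≤ 1 := by nlinarith
  have hp2 : |(p : ℝ)| * (b k * θ k) ≤ C + 1 := by
    have := abs_add_le (p * (b k * θ k) - D 0) (D 0)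
    rw [sub_add_cancel, abs_mul, abs_of_pos hbθ] at this
    linarith
  have hpn : |p| ≤ n k := by
    have h2 := supply_ge k
    have h3 : |(p : ℝ)| * (b k * θ k) ≤ n k * (b k * θ k) := by linarith
    have h4 := le_of_mul_le_mul_right h3 hbθ
    exact_mod_cast h4
  have hq2 : |(q : ℝ)| * b (k + 1) ≤ C + |(p : ℝ)| * b k + 1 / 2 := by
    have h2 := abs_add_le (q * b (k + 1) - (D 1 - p * b k)) (D 1 - p * b k)
    rw [sub_add_cancel, abs_mul (q : ℝ), abs_of_pos hb'] at h2
    have h3 := abs_sub (D 1) (p * b k)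
    rw [abs_mul (p : ℝ), abs_of_pos hb] at h3
    linarith
  have hpb : |(p : ℝ)| * b k * θ (k + 1) ≤ (C + 1) * γ k := by
    rw [hθs]
    calc |(p : ℝ)| * b k * (θ k * γ k) = (|(p : ℝ)| * (b k * θ k)) * γ k := by ring
      _ ≤ (C + 1) * γ k := mul_le_mul_of_nonneg_right hp2 hγ.le
  have hqθ : |(q : ℝ)| * b (k + 1) * θ (k + 1) ≤ (C + 1 / 2) * θ (k + 1) + (C + 1) * γ k := by
    have := mul_le_mul_of_nonneg_right hq2 hθ'.le
    linarith
  have hqn : |q| ≤ n (k + 1) := by
    have h2 := supply_ge (k + 1)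
    push_cast at h2
    have h3 : |(q : ℝ)| * (b (k + 1) * θ (k + 1)) ≤ n (k + 1) * (b (k + 1) * θ (k + 1)) := by
      nlinarith
    have h4 := le_of_mul_le_mul_right h3 (by positivity)
    exact_mod_cast h4
  obtain ⟨G1, hG1, hs1⟩ := supply (n k) (P k) p hpn
  obtain ⟨G2, hG2, hs2⟩ := supply (n (k + 1)) (P (k + 1)) q hqn
  have hs1' : |((∑ t ∈ G1, cf (n k) t : ℤ) : ℝ) * g k - p * b k| ≤ b k := by
    have h2 : |((∑ t ∈ G1, cf (n k) t : ℤ) : ℝ) - p * 2 ^ n k| ≤ 2 ^ n k := by exact_mod_cast hs1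
    unfold b
    rw [show ((∑ t ∈ G1, cf (n k) t : ℤ) : ℝ) * g k - p * (2 ^ n k * g k) =
      (((∑ t ∈ G1, cf (n k) t : ℤ) : ℝ) - p * 2 ^ n k) * g k by ring, abs_mul,
      abs_of_pos (g_pos k)]
    exact mul_le_mul_of_nonneg_right h2 (g_pos k).le
  have hs2' : |((∑ t ∈ G2, cf (n (k + 1)) t : ℤ) : ℝ) * g (k + 1) - q * b (k + 1)| ≤
      b (k + 1) := by
    have h2 : |((∑ t ∈ G2, cf (n (k + 1)) t : ℤ) : ℝ) - q * 2 ^ n (k + 1)| ≤ 2 ^ n (k + 1) := by
      exact_mod_cast hs2
    unfold b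
    rw [show ((∑ t ∈ G2, cf (n (k + 1)) t : ℤ) : ℝ) * g (k + 1) - q * (2 ^ n (k + 1) * g (k + 1)) =
      (((∑ t ∈ G2, cf (n (k + 1)) t : ℤ) : ℝ) - q * 2 ^ n (k + 1)) * g (k + 1) by ring, abs_mul,
      abs_of_pos (g_pos (k + 1))]
    exact mul_le_mul_of_nonneg_right h2 (g_pos (k + 1)).le
  set A1 : ℝ := ((∑ t ∈ G1, cf (n k) t : ℤ) : ℝ) * g k with hA1
  set A2 : ℝ := ((∑ t ∈ G2, cf (n (k + 1)) t : ℤ) : ℝ) * g (k + 1) with hA2
  refine ⟨G1.image (fun t => M L k + t) ∪ G2.image (fun t => M L (k + 1) + t), ?_, ?_⟩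
  · intro m hm
    have e1 := M_succ L k
    have e2 := M_succ L (k + 1)
    rw [mem_union, mem_image, mem_image] at hm
    rw [mem_Ico]
    rcases hm with ⟨t, ht, rfl⟩ | ⟨t, ht, rfl⟩
    · have := mem_range.mp (hG1 ht)
      change t < L k at this
      rw [show k + 2 = k + 1 + 1 by ring]
      omega
    · have := mem_range.mp (hG2 ht)
      change t < L (k + 1) at this
      rw [show k + 2 = k + 1 + 1 by ring]
      omega
  · have hdisj : Disjoint (G1.image (fun t => M L k + t)) (G2.image (fun t => M L (k + 1) + t)) := by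
      rw [Finset.disjoint_left]
      intro m hm hm'
      rw [mem_image] at hm hm'
      obtain ⟨t, ht, rfl⟩ := hm
      obtain ⟨t', ht', h⟩ := hm'
      have := mem_range.mp (hG1 ht)
      change t < L k at this
      rw [M_succ] at h
      omega
    rw [sum_union hdisj, sum_image_blk k G1 hG1, sum_image_blk (k + 1) G2 hG2, ← hA1, ← hA2]
    have hgoal1 : |A1 + A2 - D 1| ≤ err C k := by
      have h2 := abs_add_le (A1 - p * b k) (A2 - q * b (k + 1))
      have h3 := abs_add_le (A1 - p * b k + (A2 - q * b (k + 1)))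
        (q * b (k + 1) - (D 1 - p * b k))
      rw [show A1 - p * b k + (A2 - q * b (k + 1)) + (q * b (k + 1) - (D 1 - p * b k)) =
        A1 + A2 - D 1 by ring] at h3
      unfold err
      have h4 : 0 ≤ (C + 1) * θ (k + 1) := by positivity
      have h5 : 0 ≤ (C + 1) * γ k := by positivity
      linarith
    have hgoal0 : |A1 * θ k + A2 * θ (k + 1) - D 0| ≤ err C k := by
      have h2 : |(A1 - p * b k) * θ k| ≤ b k := by
        rw [abs_mul, abs_of_pos hθ]
        nlinarith
      have h3 : |A2 * θ (k + 1)| ≤ (C + 1 / 2) * θ (k + 1) + (C + 1) * γ k + b (k + 1) := by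
        rw [abs_mul, abs_of_pos hθ']
        have h4 := abs_add_le (A2 - q * b (k + 1)) (q * b (k + 1))
        rw [sub_add_cancel, abs_mul (q : ℝ), abs_of_pos hb'] at h4
        have h5 : |A2| ≤ b (k + 1) + |(q : ℝ)| * b (k + 1) := by linarith
        have h6 := mul_le_mul_of_nonneg_right h5 hθ'.le
        have h7 : b (k + 1) * θ (k + 1) ≤ b (k + 1) := by nlinarith
        linarith
      have h4 := abs_add_le ((A1 - p * b k) * θ k) (p * (b k * θ k) - D 0)
      have h5 := abs_add_le ((A1 - p * b k) * θ k + (p * (b k * θ k) - D 0)) (A2 * θ (k + 1))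
      rw [show (A1 - p * b k) * θ k + (p * (b k * θ k) - D 0) + A2 * θ (k + 1) =
        A1 * θ k + A2 * θ (k + 1) - D 0 by ring] at h5
      unfold err
      have h6 : b k * θ k ≤ b k := by nlinarith
      linarith
    rw [pi_norm_le_iff_of_nonneg (by
      refine le_trans (abs_nonneg _) hgoal1)]
    intro i
    fin_cases i
    · simpa [v] using hgoal0
    · simpa [v] using hgoal1

/-- **The sum range is the whole plane.** -/
theorem sum_range_univ (T : Fin 2 → ℝ) :
    ∃ σ : Equiv.Perm ℕ, Tendsto (fun N => ∑ i ∈ range N, x (σ i)) atTop (𝓝 T) := by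
  obtain ⟨s, hs⟩ := converges
  have hs' := hs.comp (tendsto_M L_pos)
  -- a bound for the differences
  obtain ⟨C, hC0, hC⟩ : ∃ C, 0 ≤ C ∧ ∀ k, ‖T - ∑ m ∈ range (M L k), x m‖ ≤ C := by
    have h1 := (hs'.const_sub T).norm
    obtain ⟨C, hC⟩ := h1.bddAbove_range
    refine ⟨C, (norm_nonneg _).trans (hC ⟨0, rfl⟩), fun k => hC ⟨k, rfl⟩⟩
  have hG : ∀ k, ∃ G ⊆ Ico (M L k) (M L (k + 2)), 2 * C + 2 ≤ (k : ℝ) →
      ‖∑ m ∈ G, x m - (T - ∑ m ∈ range (M L k), x m)‖ ≤ err C k := by
    intro k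
    by_cases hk : 2 * C + 2 ≤ (k : ℝ)
    · obtain ⟨G, h1, h2⟩ := approx C hC0 (T - ∑ m ∈ range (M L k), x m)
        ((norm_le_pi_norm _ 0).trans (hC k)) ((norm_le_pi_norm _ 1).trans (hC k)) k hk
      exact ⟨G, h1, fun _ => h2⟩
    · exact ⟨∅, empty_subset _, fun h => absurd h hk⟩
  choose G hG1 hG2 using hG
  let F : ℕ → Finset ℕ := fun j => match j with
    | 0 => ∅
    | j + 1 => range (M L (2 * j)) ∪ G (2 * j)
  have hdis : ∀ k, Disjoint (range (M L k)) (G k) := by
    intro k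
    rw [Finset.disjoint_left]
    intro m hm hm'
    have h1 := mem_range.mp hm
    have h2 := mem_Ico.mp (hG1 k hm')
    omega
  refine Q92.Rearr.rearr x T F rfl ?_ ?_ tendsto_x ?_
  · intro j
    cases j with
    | zero => exact empty_subset _
    | succ j =>
      change range (M L (2 * j)) ∪ G (2 * j) ⊆ range (M L (2 * (j + 1))) ∪ G (2 * (j + 1))
      refine union_subset ?_ ?_
      · exact (range_mono (M_mono L (by omega))).trans subset_union_left
      · refine Subset.trans ?_ subset_union_left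
        intro m hm
        have h2 := mem_Ico.mp (hG1 _ hm)
        exact mem_range.mpr h2.2
  · intro m
    refine ⟨m + 1 + 1, ?_⟩
    change m ∈ range (M L (2 * (m + 1))) ∪ G (2 * (m + 1))
    rw [mem_union, mem_range]
    left
    have := le_M L_pos (2 * (m + 1))
    omega
  · rw [← tendsto_add_atTop_iff_nat 1]
    rw [tendsto_iff_norm_sub_tendsto_zero]
    have h2 : Tendsto (fun j : ℕ => 2 * j) atTop atTop :=
      tendsto_atTop_mono (fun j => show j ≤ 2 * j by omega) tendsto_id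
    have h1 := (tendsto_err C).comp h2
    obtain ⟨K, hK⟩ := exists_nat_ge (2 * C + 2)
    refine squeeze_zero' (Eventually.of_forall fun j => norm_nonneg _)
      ((eventually_ge_atTop K).mono fun j hj => ?_) h1
    have h3 := hG2 (2 * j) (by
      push_cast
      have : (K : ℝ) ≤ j := by exact_mod_cast hj
      have : (0 : ℝ) ≤ j := by positivity
      linarith)
    change ‖∑ m ∈ range (M L (2 * j)) ∪ G (2 * j), x m - T‖ ≤ err C (2 * j)
    rw [sum_union (hdis _)]
    rwa [show ∑ m ∈ range (M L (2 * j)), x m + ∑ m ∈ G (2 * j), x m - T =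
      ∑ m ∈ G (2 * j), x m - (T - ∑ m ∈ range (M L (2 * j)), x m) by abel]

end Q170.AS
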